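import Pool.Agent.Y262.NU.Stm
import Pool.Agent.Y838.EX.Hex
import Pool.Agent.Y284.EG.Fam
import Pool.Agent.Y447.EG.UTs
import Pool.Agent.Y447.EG.Inv
import Pool.Agent.Y46.EG.Germ

/-!
# Project NU: a subharmonic function and the curvature of the perturbed metrics (job NU-PSI)
-/

set_option autoImplicit false

open Set Filter Topology MeasureTheory
open scoped ContDiff ComplexConjugate Real

noncomputable section

namespace Pool.Agent.Y67.NU

open Pool.Agent.Y262.EG Pool.Agent.Y262.EX Pool.Agent.Y262.NU Pool.Agent.Y838.EX Pool.Agent.Y284.EG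

/-- the invariant Laplacian -/
def BB (φ f : ℂ → ℝ) (z : ℂ) : ℝ := Real.exp (-2 * φ z) * (px (px f) z + py (py f) z)

theorem BB_lin {Ω : Set ℂ} {φ f g : ℂ → ℝ} (hΩ : IsOpen Ω) (hf : ContDiffOn ℝ ∞ f Ω)
    (hg : ContDiffOn ℝ ∞ g Ω) (a b : ℝ) {z : ℂ} (hz : z ∈ Ω) :
    BB φ (fun y => a * f y + b * g y) z = a * BB φ f z + b * BB φ g z := by
  have h0 : ContDiffOn ℝ ∞ (fun _ : ℂ => (0 : ℝ)) Ω := contDiffOn_const
  have hk : ∀ (u v : ℂ → ℝ), ContDiffOn ℝ ∞ u Ω → ContDiffOn ℝ ∞ v Ω → ∀ c : ℝ,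
      BB φ (fun y => u y + c * v y) z = BB φ u z + c * BB φ v z := by
    intro u v hu hv c
    have e1 : px (fun y => u y + c * v y) =ᶠ[𝓝 z] fun y => px u y + c * px v y := by
      filter_upwards [hΩ.mem_nhds hz] with y hy
      exact (p_lin hΩ hu hv _ hy).1
    have e2 : py (fun y => u y + c * v y) =ᶠ[𝓝 z] fun y => py u y + c * py v y := by
      filter_upwards [hΩ.mem_nhds hz] with y hy
      exact (p_lin hΩ hu hv _ hy).2
    have e3 := (px_congr e1).eq_of_nhds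
    have e4 := (py_congr e2).eq_of_nhds
    have e5 := (p_lin hΩ (px_smooth hΩ hu).1 (px_smooth hΩ hv).1 c hz).1
    have e6 := (p_lin hΩ (px_smooth hΩ hu).2 (px_smooth hΩ hv).2 c hz).2
    unfold BB
    rw [e3, e4, e5, e6]
    ring
  have z1 : BB φ (fun _ : ℂ => (0 : ℝ)) z = 0 := by
    have := hk (fun _ => 0) (fun _ => 0) h0 h0 1
    simp only [mul_zero, add_zero] at this
    linarith
  have hfa : ContDiffOn ℝ ∞ (fun y => 0 + a * f y) Ω := contDiffOn_const.add (contDiffOn_const.mul hf)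
  have h1 := hk (fun y => 0 + a * f y) g hfa hg b
  have h2 := hk (fun _ => 0) f h0 hf a
  rw [h2, z1] at h1
  simp only [zero_add] at h1
  exact h1

theorem curv_BB {Ω : Set ℂ} {f g : ℂ → ℝ} (hΩ : IsOpen Ω) (hf : ContDiffOn ℝ ∞ f Ω)
    (hg : ContDiffOn ℝ ∞ g Ω) {z : ℂ} (hz : z ∈ Ω) :
    curv (fun y => f y + g y) z = Real.exp (-(2 * g z)) * (curv f z - BB f g z) := by
  have h := curv_lin hΩ hf hg 2 hz
  rw [show (2 : ℝ) / 2 = 1 by norm_num] at h
  simp only [one_mul] at h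
  exact h

section

variable {M P : Type} [MetricSpace M] [CompactSpace M] [MetricSpace P] [CompactSpace P]

theorem BB_inv (hinv : StInv) {Ω : Set ℂ} {φ : ℂ → ℝ} {pr : ℂ → M} {q : Y → P}
    (hU : IsUT Ω φ pr q) {F : M → ℝ} (hF : ContDiffOn ℝ ∞ (fun z => F (pr z)) Ω) :
    ∀ z ∈ Ω, ∀ w ∈ Ω, pr z = pr w →
      BB φ (fun z => F (pr z)) z = BB φ (fun z => F (pr z)) w := by
  intro z hz w hw h
  have hU2 : IsUT Ω (fun y => φ y + F (pr y)) pr q := by
    have h3 := (Pool.Agent.Y447.EG.uTs M P Ω φ pr q hU F hF 2).1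
    rw [show (2 : ℝ) / 2 = 1 by norm_num] at h3
    simp only [one_mul] at h3
    exact h3
  have e1 := (hinv M P Ω _ pr q hU2 z hz w hw h).1
  have e2 := (hinv M P Ω _ pr q hU z hz w hw h).1
  rw [curv_BB hU.opn hU.smooth hF hz, curv_BB hU.opn hU.smooth hF hw, ← e2] at e1
  simp only [h] at e1
  have e3 := mul_left_cancel₀ (Real.exp_pos _).ne' e1
  linarith

theorem BB_bdd (hinv : StInv) {Ω : Set ℂ} {φ : ℂ → ℝ} {pr : ℂ → M} {q : Y → P}
    (hU : IsUT Ω φ pr q) {F : M → ℝ} (hF : ContDiffOn ℝ ∞ (fun z => F (pr z)) Ω) :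
    ∃ K : ℝ, 1 ≤ K ∧ ∀ z ∈ Ω, |BB φ (fun z => F (pr z)) z| ≤ K := by
  refine bdd_of_inv hU ?_ (BB_inv hinv hU hF)
  unfold BB
  have h1 := px_smooth hU.opn hF
  exact ((continuousOn_const.mul hU.smooth.continuousOn).rexp).mul
    ((px_smooth hU.opn h1.1).1.continuousOn.add (px_smooth hU.opn h1.2).2.continuousOn)

end

theorem px_sq (c : ℝ) : px (fun z : ℂ => (z.re - c) ^ 2) = fun z => 2 * (z.re - c) := by
  funext z
  have h1 : HasFDerivAt (fun z : ℂ => z.re - c) Complex.reCLM z :=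
    Complex.reCLM.hasFDerivAt.sub_const c
  have h2 := h1.pow 2
  unfold px
  rw [h2.fderiv]
  simp

theorem py_sq (c : ℝ) : py (fun z : ℂ => (z.re - c) ^ 2) = fun _ => 0 := by
  funext z
  have h1 : HasFDerivAt (fun z : ℂ => z.re - c) Complex.reCLM z :=
    Complex.reCLM.hasFDerivAt.sub_const c
  have h2 := h1.pow 2
  unfold py
  rw [h2.fderiv]
  simp

theorem pxx_sq (c : ℝ) (z : ℂ) : px (px (fun z : ℂ => (z.re - c) ^ 2)) z = 2 := by
  rw [px_sq]
  have h1 : HasFDerivAt (fun z : ℂ => z.re - c) Complex.reCLM z :=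
    Complex.reCLM.hasFDerivAt.sub_const c
  have h2 := h1.const_mul 2
  unfold px
  rw [h2.fderiv]
  simp

theorem pyy_sq (c : ℝ) (z : ℂ) : py (py (fun z : ℂ => (z.re - c) ^ 2)) z = 0 := by
  rw [py_sq]
  unfold py
  simp

/-- functions on the cylinder extend by zero -/
theorem ext0 {M P : Type} [MetricSpace M] [CompactSpace M] [MetricSpace P] [CompactSpace P]
    {Ω : Set ℂ} {φ : ℂ → ℝ} {pr : ℂ → M} {q : Y → P} {L δ δ' κ C : ℝ} {g : ℝ → ℝ} {σ : M → M}
    (hU : IsUT Ω φ pr q) (hC : Cls Ω φ pr L δ δ' κ C g) (hR : Rfl Ω φ pr σ) (b : ℝ → ℝ)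
    (hbs : ContDiff ℝ ∞ b) (hbn : ∀ x, 0 ≤ b x) (lo hi : ℝ) (hlo : -δ' < lo) (hhi : hi < L + δ')
    (hb0 : ∀ x, b x ≠ 0 → lo ≤ x ∧ x ≤ hi) :
    Continuous (hh pr L δ' b) ∧ (∀ x, 0 ≤ hh pr L δ' b x) ∧
      (∀ x, hh pr L δ' b (σ x) = hh pr L δ' b x) ∧
      ContDiffOn ℝ ∞ (fun z => hh pr L δ' b (pr z)) Ω := by
  have hin := hC.inj
  have hStpO : IsOpen (Stp L δ') := by
    have h : Stp L δ' = Complex.re ⁻¹' (Ioo (-δ') (L + δ')) := by
      ext z; simp [Stp]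
    rw [h]
    exact isOpen_Ioo.preimage Complex.continuous_re
  let R : Set ℂ := {z | (lo ≤ z.re ∧ z.re ≤ hi) ∧ (0 ≤ z.im ∧ z.im ≤ 2 * π)}
  have hRsub : R ⊆ Stp L δ' := by
    rintro z ⟨⟨ha, hb⟩, -⟩
    exact ⟨by linarith, by linarith⟩
  have hRc : IsCompact R := by
    have hR1 : R = (Icc lo hi) ×ℂ (Icc 0 (2 * π)) := by
      ext z
      simp [R, Complex.mem_reProdIm]
    rw [hR1]
    exact isCompact_Icc.reProdIm isCompact_Icc
  have hKc : IsClosed (pr '' R) :=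
    (hRc.image_of_continuousOn (hU.contp.mono (hRsub.trans hC.strip))).isClosed
  have hK : ∀ x, hh pr L δ' b x ≠ 0 → x ∈ pr '' R := by
    intro x hx
    obtain ⟨z, hz, rfl, hbz⟩ := hh_cases hin hx
    have habs := hb0 _ hbz
    have hpi := Real.pi_pos
    set n : ℤ := -⌊z.im / (2 * π)⌋ with hn
    refine ⟨z + n * (2 * Real.pi * Complex.I), ⟨⟨?_, ?_⟩, ?_, ?_⟩, per_int hC.per n z hz⟩
    · have h3 : (z + n * (2 * Real.pi * Complex.I)).re = z.re := by simp
      rw [h3]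
      exact habs.1
    · have h3 : (z + n * (2 * Real.pi * Complex.I)).re = z.re := by simp
      rw [h3]
      exact habs.2
    · have h3 : (z + n * (2 * Real.pi * Complex.I)).im = z.im + n * (2 * π) := by simp
      rw [h3, hn]
      have h4 := Int.floor_le (z.im / (2 * π))
      rw [le_div_iff₀ (by positivity)] at h4
      push_cast
      linarith
    · have h3 : (z + n * (2 * Real.pi * Complex.I)).im = z.im + n * (2 * π) := by simp
      rw [h3, hn]
      have h4 := (Int.lt_floor_add_one (z.im / (2 * π))).le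
      rw [div_le_iff₀ (by positivity)] at h4
      push_cast
      linarith
  have hsm : ∀ z ∈ Ω, ContDiffAt ℝ ∞ (fun z => hh pr L δ' b (pr z)) z := by
    intro z hz
    by_cases hzK : pr z ∈ pr '' R
    · obtain ⟨w, hw, hwz⟩ := hzK
      have hwS := hRsub hw
      obtain ⟨r, γ, hr, hb, hd, hγ, hp⟩ := deck_germ hU hz (hC.strip hwS) hwz.symm
      have hnb : Metric.ball z r ∈ 𝓝 z := Metric.ball_mem_nhds z hr
      have hcd : ContDiffAt ℝ ∞ γ z :=
        ((hd.contDiffOn Metric.isOpen_ball).contDiffAt hnb : ContDiffAt ℂ ∞ γ z).restrict_scalars ℝ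
      have hev : (fun z => hh pr L δ' b (pr z)) =ᶠ[𝓝 z] fun ζ => b (γ ζ).re := by
        have h3 : ∀ᶠ ζ in 𝓝 z, γ ζ ∈ Stp L δ' := by
          apply hcd.continuousAt
          rw [hγ]
          exact hStpO.mem_nhds hwS
        filter_upwards [h3, hnb] with ζ hζ hζb
        rw [← (hp ζ hζb).2.1, hh_val hin hζ]
      refine ContDiffAt.congr_of_eventuallyEq ?_ hev
      have h4 : ContDiffAt ℝ ∞ (fun ζ => (γ ζ).re) z :=
        (Complex.reCLM.contDiff.contDiffAt (n := ∞)).comp z hcd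
      exact (hbs.contDiffAt (n := ∞)).comp z h4
    · have hev : (fun z => hh pr L δ' b (pr z)) =ᶠ[𝓝 z] fun _ => 0 := by
        have h3 : ∀ᶠ ζ in 𝓝 z, pr ζ ∈ (pr '' R)ᶜ := by
          have h5 := (hU.contp z hz).continuousAt (hU.opn.mem_nhds hz)
          exact h5 (hKc.isOpen_compl.mem_nhds hzK)
        filter_upwards [h3] with ζ hζ
        by_contra hcon
        exact hζ (hK _ hcon)
      exact contDiffAt_const.congr_of_eventuallyEq hev
  have hcO : ContinuousOn (fun z => hh pr L δ' b (pr z)) Ω := fun z hz =>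
    (hsm z hz).continuousAt.continuousWithinAt
  have hover : ∀ x, (∃ z, z ∈ Stp L δ' ∧ pr z = x) → hh pr L δ' b (σ x) = hh pr L δ' b x := by
    rintro x ⟨z, hz, rfl⟩
    have hz' : conj z ∈ Stp L δ' := by simpa [Stp] using hz
    rw [hR.rfl' z (hC.strip hz), hh_val hin hz', hh_val hin hz, Complex.conj_re]
  have hσσ : ∀ x, σ (σ x) = x := by
    intro x
    have hx : x ∈ pr '' Ω := by rw [hU.surjp]; trivial
    obtain ⟨z, hz, rfl⟩ := hx
    rw [hR.rfl' z hz, hR.rfl' _ (hR.maps z hz), Complex.conj_conj]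
  refine ⟨?_, ?_, ?_, fun z hz => (hsm z hz).contDiffWithinAt⟩
  · rw [continuous_def]
    intro V hV
    have h3 : hh pr L δ' b ⁻¹' V = pr '' (Ω ∩ (fun z => hh pr L δ' b (pr z)) ⁻¹' V) := by
      ext x
      constructor
      · intro hx
        have hx' : x ∈ pr '' Ω := by rw [hU.surjp]; trivial
        obtain ⟨z, hz, rfl⟩ := hx'
        exact ⟨z, ⟨hz, hx⟩, rfl⟩
      · rintro ⟨z, ⟨-, hz⟩, rfl⟩
        exact hz
    rw [h3]
    exact hU.opnp _ (hcO.isOpen_inter_preimage hU.opn hV) inter_subset_left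
  · intro x
    by_cases h : ∃ z, z ∈ Stp L δ' ∧ pr z = x
    · obtain ⟨z, hz, rfl⟩ := h
      rw [hh_val hin hz]
      exact hbn _
    · rw [hh_off h]
  · intro x
    by_cases h : ∃ z, z ∈ Stp L δ' ∧ pr z = x
    · exact hover x h
    · by_cases h' : ∃ z, z ∈ Stp L δ' ∧ pr z = σ x
      · have h3 := hover (σ x) h'
        rw [hσσ] at h3
        exact h3.symm
      · rw [hh_off h, hh_off h']

/-- the cut off quadratic function -/
theorem cut (L δ δ' : ℝ) (hL : 0 < L) (hδ : 0 < δ) (hlt : δ < δ') :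
    ∃ (ρ : ℝ → ℝ) (d1 lo hi : ℝ), δ < d1 ∧ d1 < δ' ∧ ContDiff ℝ ∞ ρ ∧ (∀ x, 0 ≤ ρ x) ∧ -δ' < lo ∧
      hi < L + δ' ∧ (∀ x, ρ x ≠ 0 → lo ≤ x ∧ x ≤ hi) ∧
      ∀ x, -d1 < x → x < L + d1 → ρ x = (x - L / 2) ^ 2 := by
  have h1 : 0 < L / 2 + (δ + (δ' - δ) / 3) := by linarith
  let b : ContDiffBump (L / 2) := ⟨L / 2 + (δ + (δ' - δ) / 3), L / 2 + (δ + 2 * (δ' - δ) / 3), h1,
    by linarith⟩
  refine ⟨fun x => b x * (x - L / 2) ^ 2, δ + (δ' - δ) / 3, -(δ + 2 * (δ' - δ) / 3),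
    L + (δ + 2 * (δ' - δ) / 3), by linarith, by linarith, ?_, ?_, by linarith, by linarith, ?_, ?_⟩
  · exact b.contDiff.mul ((contDiff_id.sub contDiff_const).pow 2)
  · intro x
    exact mul_nonneg b.nonneg (sq_nonneg _)
  · intro x hx
    have h2 : b x ≠ 0 := left_ne_zero_of_mul hx
    have h3 : |x - L / 2| < L / 2 + (δ + 2 * (δ' - δ) / 3) := by
      by_contra hcon
      exact h2 (b.zero_of_le_dist (by rw [Real.dist_eq]; exact not_lt.1 hcon))
    obtain ⟨h4, h5⟩ := abs_lt.1 h3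
    exact ⟨by linarith, by linarith⟩
  · intro x hx1 hx2
    have h2 : b x = 1 := b.one_of_mem_closedBall (by
      rw [Metric.mem_closedBall, Real.dist_eq, abs_le]
      change -(L / 2 + (δ + (δ' - δ) / 3)) ≤ x - L / 2 ∧ x - L / 2 ≤ L / 2 + (δ + (δ' - δ) / 3)
      exact ⟨by linarith, by linarith⟩)
    simp only
    rw [h2, one_mul]

theorem psi_of (hinv : StInv) : StPsi := by
  intro M P _ _ _ _ Ω φ pr q L δ δ' κ C g σ hU hC hR
  obtain ⟨ρ, d1, lo, hi, hd1, hd2, hρs, hρn, hlo, hhi, hρ0, hρv⟩ :=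
    cut L δ δ' hC.posL hC.posδ hC.ltδ
  obtain ⟨c1, c2, c3, c4⟩ := ext0 hU hC hR ρ hρs hρn lo hi hlo hhi hρ0
  obtain ⟨ψ, hψ⟩ : ∃ ψ : M → ℝ, ψ = hh pr L δ' ρ := ⟨_, rfl⟩
  rw [← hψ] at c1 c2 c3 c4
  refine ⟨ψ, c1, c2, c3, c4, fun F hFc hF => ?_⟩
  obtain ⟨KF, hKF1, hKF⟩ := BB_bdd hinv hU hF
  obtain ⟨Kψ, hKψ1, hKψ⟩ := BB_bdd hinv hU c4
  -- bound of the conformal factor on the strip
  obtain ⟨Kg, hKg1, hKg⟩ : ∃ K : ℝ, 1 ≤ K ∧ ∀ w ∈ Stp L δ, 1 ≤ K * Real.exp (-2 * φ w) := by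
    have hc : ContinuousOn (fun x : ℝ => Real.exp (2 * φ (x : ℂ))) (Icc (-δ) (L + δ)) := by
      have h1 : ContinuousOn (fun x : ℝ => φ (x : ℂ)) (Icc (-δ) (L + δ)) := by
        refine hU.smooth.continuousOn.comp Complex.continuous_ofReal.continuousOn ?_
        intro x hx
        apply hC.strip
        refine ⟨?_, ?_⟩
        · rw [Complex.ofReal_re]
          linarith [hx.1, hC.ltδ]
        · rw [Complex.ofReal_re]
          linarith [hx.2, hC.ltδ]
      exact (continuousOn_const.mul h1).rexp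
    obtain ⟨K, hK⟩ := isCompact_Icc.exists_bound_of_continuousOn hc
    refine ⟨max K 1, le_max_right _ _, fun w hw => ?_⟩
    have hw' : w ∈ Stp L δ' := ⟨by linarith [hw.1, hC.ltδ], by linarith [hw.2, hC.ltδ]⟩
    have hr' : ((w.re : ℝ) : ℂ) ∈ Stp L δ' := hw'
    have e : φ w = φ ((w.re : ℝ) : ℂ) := by
      rw [hC.rot w hw', hC.rot _ hr', Complex.ofReal_re]
    have h2 := hK w.re ⟨hw.1.le, hw.2.le⟩
    rw [Real.norm_eq_abs, abs_of_pos (Real.exp_pos _), ← e] at h2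
    have h3 : Real.exp (2 * φ w) ≤ max K 1 := h2.trans (le_max_left _ _)
    calc (1 : ℝ) = Real.exp (2 * φ w) * Real.exp (-2 * φ w) := by
          rw [← Real.exp_add, show 2 * φ w + -2 * φ w = 0 by ring, Real.exp_zero]
      _ ≤ max K 1 * Real.exp (-2 * φ w) := mul_le_mul_of_nonneg_right h3 (Real.exp_pos _).le
  -- the value on the strip
  have hStO : IsOpen (Stp L d1) := by
    have h : Stp L d1 = Complex.re ⁻¹' (Ioo (-d1) (L + d1)) := by
      ext z; simp [Stp]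
    rw [h]
    exact isOpen_Ioo.preimage Complex.continuous_re
  have hval : ∀ w ∈ Stp L δ, BB φ (fun z => ψ (pr z)) w = Real.exp (-2 * φ w) * 2 := by
    intro w hw
    have hw1 : w ∈ Stp L d1 := ⟨by linarith [hw.1], by linarith [hw.2]⟩
    have hev : (fun z => ψ (pr z)) =ᶠ[𝓝 w] fun z : ℂ => (z.re - L / 2) ^ 2 := by
      filter_upwards [hStO.mem_nhds hw1] with z hz
      have hz' : z ∈ Stp L δ' := ⟨by linarith [hz.1], by linarith [hz.2]⟩
      rw [hψ, hh_val hC.inj hz', hρv _ hz.1 hz.2]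
    unfold BB
    rw [(px_congr (px_congr hev)).eq_of_nhds, (py_congr (py_congr hev)).eq_of_nhds, pxx_sq,
      pyy_sq, add_zero]
  have hκ := hC.posκ
  obtain ⟨N, hN⟩ : ∃ N : ℝ, N = KF * Kg := ⟨_, rfl⟩
  have hN1 : 1 ≤ N := by rw [hN]; nlinarith
  have hε : 0 < κ / (KF + (N + 1) * Kψ) := by
    have : 0 < KF + (N + 1) * Kψ := by nlinarith
    positivity
  refine ⟨N, κ / (KF + (N + 1) * Kψ), hN1, hε, fun t τ ht0 ht hτ0 hτ z hz => ?_⟩
  have hcur : curv (fun z => φ z + t * (F (pr z) + N * ψ (pr z)) + τ * ψ (pr z)) z =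
      Real.exp (-(2 * (t * F (pr z) + (t * N + τ) * ψ (pr z)))) *
        (curv φ z - (t * BB φ (fun z => F (pr z)) z + (t * N + τ) * BB φ (fun z => ψ (pr z)) z)) := by
    have e : (fun z => φ z + t * (F (pr z) + N * ψ (pr z)) + τ * ψ (pr z)) =
        fun z => φ z + (t * F (pr z) + (t * N + τ) * ψ (pr z)) := by
      funext y
      ring
    rw [e, curv_BB hU.opn hU.smooth ((contDiffOn_const.mul hF).add (contDiffOn_const.mul c4)) hz,
      BB_lin hU.opn hF c4 t (t * N + τ) hz]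
  rw [hcur]
  refine mul_neg_of_pos_of_neg (Real.exp_pos _) ?_
  have hs0 : 0 < t * N + τ := by positivity
  by_cases hA : ∃ w ∈ Stp L δ, pr w = pr z
  · obtain ⟨w, hw, hwz⟩ := hA
    have hw' : w ∈ Stp L δ' := ⟨by linarith [hw.1, hC.ltδ], by linarith [hw.2, hC.ltδ]⟩
    have hwΩ := hC.strip hw'
    rw [(hinv M P Ω φ pr q hU z hz w hwΩ hwz.symm).1, BB_inv hinv hU hF z hz w hwΩ hwz.symm,
      BB_inv hinv hU c4 z hz w hwΩ hwz.symm, hval w hw]
    have k1 := hC.neg w hwΩ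
    have k2 := (abs_le.1 (hKF w hwΩ)).1
    have k3 := hKg w hw
    have k4 : 0 < Real.exp (-2 * φ w) := Real.exp_pos _
    -- `N exp = KF (Kg exp) ≥ KF`
    have k5 : KF ≤ N * Real.exp (-2 * φ w) := by
      rw [hN, mul_assoc]
      nlinarith
    have k6 : 0 ≤ t * (BB φ (fun z => F (pr z)) w + N * Real.exp (-2 * φ w)) :=
      mul_nonneg ht0 (by linarith)
    have k7 : 0 ≤ t * N * Real.exp (-2 * φ w) := by positivity
    have k8 : 0 < τ * Real.exp (-2 * φ w) := by positivity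
    nlinarith
  · have k1 : curv φ z ≤ -κ := by
      by_contra hcon
      exact hA (hC.low z hz (not_le.1 hcon))
    have k2 := (abs_le.1 (hKF z hz)).1
    have k3 := (abs_le.1 (hKψ z hz)).1
    have hden : 0 < KF + (N + 1) * Kψ := by nlinarith
    obtain ⟨ε, hεe⟩ : ∃ ε : ℝ, ε = κ / (KF + (N + 1) * Kψ) := ⟨_, rfl⟩
    rw [← hεe] at ht hτ hε
    have k4 : ε * (KF + (N + 1) * Kψ) = κ := by
      rw [hεe]
      field_simp
    have k5 : t * BB φ (fun z => F (pr z)) z ≥ -(t * KF) := by nlinarith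
    have k6 : (t * N + τ) * BB φ (fun z => ψ (pr z)) z ≥ -((t * N + τ) * Kψ) := by nlinarith
    have k7 : t * KF ≤ ε * KF := mul_le_mul_of_nonneg_right ht.le (by linarith)
    have k8 : (t * N + τ) * Kψ < ε * ((N + 1) * Kψ) := by
      have : t * N + τ < ε * (N + 1) := by nlinarith
      nlinarith
    linarith

theorem psi : StPsi := psi_of (Pool.Agent.Y447.EG.inv Pool.Agent.Y46.EG.germ)

end Pool.Agent.Y67.NU
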